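import Mathlib

/-!
# Project DJ (helper127): S03687, dependent zero coordinates under a joining (MP_03548f_an)

Every job: `theorem name (hypotheses) : S_name`. The proof is in the docstring of `S_name`. All functions on `ℕ → ℕ` are
functions of finitely many names `f (x i)` or bounded measurable functions.
-/

set_option autoImplicit false

namespace Pool.Agent.Q127.DJ

open MeasureTheory Filter Topology

/-- the shift -/
def S (x : ℕ → ℕ) : ℕ → ℕ := fun n => x (n + 1)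

/-- the name of length `t` -/
def nm {m : ℕ} (f : ℕ → Fin m) (t : ℕ) (x : ℕ → ℕ) : Fin t → Fin m := fun i => f (x i)

/-- the points with the name `w` -/
def cyl {m : ℕ} (f : ℕ → Fin m) (t : ℕ) (w : Fin t → Fin m) : Set (ℕ → ℕ) := {x | nm f t x = w}

/-- a function of the name of length `t` -/
def Dep {m : ℕ} (f : ℕ → Fin m) (t : ℕ) (ψ : (ℕ → ℕ) → ℝ) : Prop := ∀ x y, nm f t x = nm f t y → ψ x = ψ y

/-- the indicator of `f (x_s) = a` -/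
noncomputable def I {m : ℕ} (f : ℕ → Fin m) (a : Fin m) (s : ℕ) (x : ℕ → ℕ) : ℝ := if f (x s) = a then 1 else 0

/-- the conditional expectation of `φ` given the name of length `t` -/
noncomputable def E (μ : Measure (ℕ → ℕ)) {m : ℕ} (f : ℕ → Fin m) (t : ℕ) (φ : (ℕ → ℕ) → ℝ) (x : ℕ → ℕ) : ℝ :=
  (∫ y in cyl f t (nm f t x), φ y ∂μ) / μ.real (cyl f t (nm f t x))

/-- the innovation of the indicator at time `t` -/
noncomputable def g (μ : Measure (ℕ → ℕ)) {m : ℕ} (f : ℕ → Fin m) (a : Fin m) (t : ℕ) (x : ℕ → ℕ) : ℝ :=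
  I f a t x - E μ f t (I f a t) x

/-- the density -/
noncomputable def D (μ ν : Measure (ℕ → ℕ)) {m k : ℕ} (f : ℕ → Fin m) (h : ℕ → Fin k) (a : Fin m) (b : Fin k) (ε : ℝ)
    (T U : ℕ) (x y : ℕ → ℕ) : ℝ := ∏ t ∈ Finset.Ico T U, (1 + ε * g μ f a t x * g ν h b t y)

/-- bounded by `C` and measurable -/
def BM (C : ℝ) (φ : (ℕ → ℕ) → ℝ) : Prop := Measurable φ ∧ ∀ x, |φ x| ≤ C

/-- CE1. `E φ` is a function of the name, `|E φ| ≤ C` if `|φ| ≤ C`, and measurable (a function of the finitely many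
names, `nm f t` is measurable: `measurable_pi_iff`). -/
def S_ce1 : Prop := ∀ (μ : Measure (ℕ → ℕ)) [IsProbabilityMeasure μ] (m : ℕ) (f : ℕ → Fin m) (t : ℕ) (C : ℝ)
  (φ : (ℕ → ℕ) → ℝ), 0 ≤ C → BM C φ → Dep f t (E μ f t φ) ∧ BM C (E μ f t φ)

/-- CE2. Proof: split both integrals over the finitely many cylinders `cyl f t w` (measurable, disjoint, cover everything:
`integral_eq_sum...` or `∫ = ∑ w, ∫ in cyl f t w`); on `cyl f t w` `ψ` is a constant and `E φ` is the constant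
`(∫ y in cyl f t w, φ) / μ.real (cyl f t w)`; if `μ.real (cyl f t w) = 0` both sides vanish. -/
def S_ce2 : Prop := ∀ (μ : Measure (ℕ → ℕ)) [IsProbabilityMeasure μ] (m : ℕ) (f : ℕ → Fin m) (t : ℕ) (C C' : ℝ)
  (φ ψ : (ℕ → ℕ) → ℝ), BM C φ → BM C' ψ → Dep f t ψ → ∫ x, ψ x * E μ f t φ x ∂μ = ∫ x, ψ x * φ x ∂μ

/-- INN. Properties of `g` (from S_ce1, S_ce2): a function of the name of length `t + 1`, measurable, bounded by `1` (both
`I` and `E I` lie in `[0,1]`), and orthogonal to the functions of the name of length `t`; and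
`∫ g I_t = ∫ g ^ 2` is at least `0` (`∫ g * E (I_t) = 0`). -/
def S_inn : Prop := ∀ (μ : Measure (ℕ → ℕ)) [IsProbabilityMeasure μ] (m : ℕ) (f : ℕ → Fin m) (a : Fin m) (t : ℕ),
  Dep f (t + 1) (g μ f a t) ∧ BM 1 (g μ f a t) ∧
  (∀ (C : ℝ) (ψ : (ℕ → ℕ) → ℝ), BM C ψ → Dep f t ψ → ∫ x, ψ x * g μ f a t x ∂μ = 0) ∧
  ∫ x, g μ f a t x * I f a t x ∂μ = ∫ x, (g μ f a t x) ^ 2 ∂μ

/-- MAR. Proof: induction on `U`; the product up to `U` is a bounded function of the name of length `U`, so its integral with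
`g μ f a U` is `0` by S_inn. -/
def S_mar : Prop := ∀ (μ : Measure (ℕ → ℕ)) [IsProbabilityMeasure μ] (m : ℕ) (f : ℕ → Fin m) (a : Fin m) (c : ℕ → ℝ)
  (T U : ℕ), (∀ t, |c t| ≤ 1) → ∫ x, ∏ t ∈ Finset.Ico T U, (1 + c t * g μ f a t x) ∂μ = 1

/-- BES. Bessel. Proof: let `δ t = E (t+1) φ - E t φ`. By S_ce2 `∫ (δ t)^2 = ∫ (E (t+1) φ)^2 - ∫ (E t φ)^2` (tower:
`∫ E (t+1) φ * E t φ = ∫ φ * E t φ = ∫ (E t φ)^2`, as `E t φ` is also a function of the name of length `t + 1`).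
`E t (g t * φ) = E t (g t * δ t)` pointwise or a.e. (test with functions `ψ` of the name of length `t`:
`∫ ψ g φ = ∫ ψ g E (t+1) φ` as `ψ g` is a function of the name of length `t + 1`, and `∫ ψ g E t φ = 0`), so
`∫ (E t (g t φ))^2 = ∫ E t (g t φ) * g t * δ t ≤ (∫ (E t (g t φ))^2)^(1/2) (∫ (δ t)^2)^(1/2)` as `|g| ≤ 1`; hence
`∫ (E t (g t φ))^2 ≤ ∫ (δ t)^2`; the sum telescopes and is at most `∫ (E U φ)^2 ≤ ∫ φ^2`. -/
def S_bes : Prop := ∀ (μ : Measure (ℕ → ℕ)) [IsProbabilityMeasure μ] (m : ℕ) (f : ℕ → Fin m) (a : Fin m) (T U : ℕ)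
  (C : ℝ) (φ : (ℕ → ℕ) → ℝ), BM C φ →
  ∑ t ∈ Finset.Ico T U, ∫ x, (E μ f t (fun y => g μ f a t y * φ y) x) ^ 2 ∂μ ≤ ∫ x, (φ x) ^ 2 ∂μ

/-- REC. The recursion. Proof: induction on `U` for all bounded `φ`, `ψ`; `D (T, U+1) = D (T, U) (1 + ε g_U(x) h_U(y))`;
and for fixed `y` the function `D (T, U) (·, y)` is a function of the name of length `U`, so by S_ce2 in `x` and then in
`y` (Fubini: `integral_prod`, or iterated integrals as here with bounded measurable functions)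
`∫∫ φ' ψ' D = ∫∫ (E U φ') (E U ψ') D`. -/
def S_rec : Prop := ∀ (μ ν : Measure (ℕ → ℕ)) [IsProbabilityMeasure μ] [IsProbabilityMeasure ν] (m k : ℕ)
  (f : ℕ → Fin m) (h : ℕ → Fin k) (a : Fin m) (b : Fin k) (ε C C' : ℝ) (T U : ℕ) (φ ψ : (ℕ → ℕ) → ℝ),
  0 ≤ ε → ε ≤ 1 → BM C φ → BM C' ψ →
  ∫ x, ∫ y, φ x * ψ y * D μ ν f h a b ε T U x y ∂ν ∂μ = (∫ x, φ x ∂μ) * (∫ y, ψ y ∂ν) +
    ε * ∑ t ∈ Finset.Ico T U, ∫ x, ∫ y, E μ f t (fun z => g μ f a t z * φ z) x *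
      E ν h t (fun z => g ν h b t z * ψ z) y * D μ ν f h a b ε T t x y ∂ν ∂μ

/-- LTW. Proof: `D ≥ 0`, `∫ D(x, y) dν(y) = 1` and `∫ D(x, y) dμ(x) = 1` (S_mar with `c t = ε g_t(x)`), and Cauchy-Schwarz:
for `s > 0`: `|u v| ≤ (s u^2 + v^2 / s) / 2`, integrate, `∫∫ u(x)^2 D = ∫ u^2 dμ`, `∫∫ v(y)^2 D = ∫ v^2 dν` (Fubini), then
optimise `s` (or use the quadratic polynomial / discriminant). -/
def S_ltw : Prop := ∀ (μ ν : Measure (ℕ → ℕ)) [IsProbabilityMeasure μ] [IsProbabilityMeasure ν] (m k : ℕ)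
  (f : ℕ → Fin m) (h : ℕ → Fin k) (a : Fin m) (b : Fin k) (ε C C' : ℝ) (T U : ℕ) (u v : (ℕ → ℕ) → ℝ),
  0 ≤ ε → ε ≤ 1 → BM C u → BM C' v →
  |∫ x, ∫ y, u x * v y * D μ ν f h a b ε T U x y ∂ν ∂μ| ≤
    Real.sqrt (∫ x, (u x) ^ 2 ∂μ) * Real.sqrt (∫ y, (v y) ^ 2 ∂ν)

/-- EXPA. Proof: S_rec twice; the double sum is bounded by S_ltw, Cauchy-Schwarz for sums
(`Finset.sum_mul_le_sqrt_mul_sqrt`, `Real.sum_sqrt_mul_sqrt_le`) and S_bes: for each `t`,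
`∑_r ‖E_r (g_r u_t)‖ ‖E_r (h_r v_t)‖ ≤ ‖u_t‖ ‖v_t‖`, and `∑_t ‖u_t‖ ‖v_t‖ ≤ ‖φ‖ ‖ψ‖ ≤ 1`, where
`u_t = E_t (g_t φ)`, `v_t = E_t (h_t ψ)`; `∫ u_t = ∫ g_t φ` by S_ce2 with `ψ = 1`. -/
def S_expa : Prop := ∀ (μ ν : Measure (ℕ → ℕ)) [IsProbabilityMeasure μ] [IsProbabilityMeasure ν] (m k : ℕ)
  (f : ℕ → Fin m) (h : ℕ → Fin k) (a : Fin m) (b : Fin k) (ε : ℝ) (T U : ℕ) (φ ψ : (ℕ → ℕ) → ℝ),
  0 ≤ ε → ε ≤ 1 → BM 1 φ → BM 1 ψ →
  |∫ x, ∫ y, φ x * ψ y * D μ ν f h a b ε T U x y ∂ν ∂μ - (∫ x, φ x ∂μ) * (∫ y, ψ y ∂ν) -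
    ε * ∑ t ∈ Finset.Ico T U, (∫ x, g μ f a t x * φ x ∂μ) * (∫ y, g ν h b t y * ψ y ∂ν)| ≤ ε ^ 2

/-- `A(t, k)`, the covariance of the innovation at time `t` with the indicator at time `t + k` -/
noncomputable def A (μ : Measure (ℕ → ℕ)) {m : ℕ} (f : ℕ → Fin m) (a : Fin m) (t k : ℕ) : ℝ :=
  ∫ x, g μ f a t x * I f a (t + k) x ∂μ

/-- MON. Proof: `∫ (E t (φ ∘ S^t))^2 = ∑ w, (∫ in cyl f t w, φ ∘ S^[t])^2 / μ.real (cyl f t w)` (terms with `0 / 0 = 0`: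
then the integral is `0` too), the same for `t + 1` over the words `(c, w)`; as `μ` is invariant,
`∑ c, ∫ in cyl f (t+1) (c, w), φ ∘ S^[t+1] = ∫ in S⁻¹ (cyl f t w), (φ ∘ S^[t]) ∘ S = ∫ in cyl f t w, φ ∘ S^[t]` and
`∑ c, μ.real (cyl f (t+1) (c, w)) = μ.real (cyl f t w)`; use `(∑ α)^2 / ∑ β ≤ ∑ α^2 / β` (Sedrakyan,
`Finset.sq_sum_div_le_sum_sq_div`). -/
def S_mon : Prop := ∀ (μ : Measure (ℕ → ℕ)) [IsProbabilityMeasure μ], MeasurePreserving S μ μ → ∀ (m : ℕ)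
  (f : ℕ → Fin m) (C : ℝ) (φ : (ℕ → ℕ) → ℝ), BM C φ →
  Monotone (fun t => ∫ x, (E μ f t (fun y => φ (S^[t] y)) x) ^ 2 ∂μ)

/-- CNV. Proof: `A(t, k) = ∫ I_t I_{t+k} - ∫ (E t I_t) (E t I_{t+k})` (S_ce2); the first term does not depend on `t`
(invariance); for `c = ±1` the numbers `M_c(t) = ∫ (E t (I_t + c I_{t+k}))^2` are monotone in `t` (S_mon with
`φ = I 0 + c I k`; `I (t + k) y = I k (S^[t] y)`) and bounded by `4`, so they converge, and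
`∫ (E t I_t) (E t I_{t+k}) = (M_1 - M_{-1}) / 4`. -/
def S_cnv : Prop := ∀ (μ : Measure (ℕ → ℕ)) [IsProbabilityMeasure μ], MeasurePreserving S μ μ → ∀ (m : ℕ)
  (f : ℕ → Fin m) (a : Fin m) (k : ℕ), ∃ l : ℝ, Tendsto (fun t => A μ f a t k) atTop (𝓝 l)

/-- SQS. Proof: for `s ≥ K`: `∑_{k ≤ K} A(s - k, k)^2 = ∑_{t ∈ [s-K, s]} (∫ g_t I_s)^2 ≤ ∑_t ∫ (E_t (g_t I_s))^2 ≤ 1` by
S_bes (`∫ g_t I_s = ∫ E_t (g_t I_s)` by S_ce2, and `(∫ u)^2 ≤ ∫ u^2`); let `s → ∞`. -/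
def S_sqs : Prop := ∀ (μ : Measure (ℕ → ℕ)) [IsProbabilityMeasure μ] (m : ℕ) (f : ℕ → Fin m) (a : Fin m) (l : ℕ → ℝ),
  (∀ k, Tendsto (fun t => A μ f a t k) atTop (𝓝 (l k))) → Summable (fun k => l k ^ 2)

/-- the entropy hypothesis of S03687 -/
def Pos (μ : Measure (ℕ → ℕ)) (m : ℕ) (f : ℕ → Fin m) : Prop := ∃ c : ℝ, 0 < c ∧ ∀ n : ℕ,
  c * (n : ℝ) ≤ ∑ w : Fin n → Fin m, Real.negMulLog ((μ {x : ℕ → ℕ | ∀ i : Fin n, f (x i.val) = w i}).toReal)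

/-- CHA. Chain rule and bound. Proof: for a word `w` of length `n` with `P(w) = μ.real (cyl f n w)` and the words `w a` of
length `n + 1`: `∑_a negMulLog (P(wa)) - negMulLog (P(w)) = P(w) ∑_a negMulLog (P(wa) / P(w))` (if `P(w) ≠ 0`, else
everything is `0`); for every `η > 0` there is `K` with `negMulLog p ≤ η + K p (1 - p)` on `[0, 1]` (compactness, or near
`0` and `1` `negMulLog p ≤ η`, elsewhere `p (1 - p)` is bounded below); and `∑_w P(w) ∑_a p (1 - p) = ∑_a ∫ g_a(n)^2`. -/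
def S_cha : Prop := ∀ η : ℝ, 0 < η → ∃ K : ℝ, 0 ≤ K ∧ ∀ (μ : Measure (ℕ → ℕ)) [IsProbabilityMeasure μ] (m : ℕ)
  (f : ℕ → Fin m) (n : ℕ),
  ∑ w : Fin (n + 1) → Fin m, Real.negMulLog (μ.real (cyl f (n + 1) w)) ≤
    ∑ w : Fin n → Fin m, Real.negMulLog (μ.real (cyl f n w)) + m * η + K * ∑ a : Fin m, ∫ x, (g μ f a n x) ^ 2 ∂μ

/-- ENT. Proof: by S_inn `∫ g_a(t)^2 = A(t, 0)`, which converges to some `l a ≥ 0` (S_cnv). If all `l a` are `0`, then by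
S_cha (sum over `n < N`, divide by `N`, Cesàro) `c ≤ m η` for all `η > 0`, a contradiction (`m = 0` is impossible: there is
no function `ℕ → Fin 0`). -/
def S_ent : Prop := ∀ (μ : Measure (ℕ → ℕ)) [IsProbabilityMeasure μ], MeasurePreserving S μ μ → ∀ (m : ℕ)
  (f : ℕ → Fin m), Pos μ m f → ∃ (a : Fin m) (l : ℝ), l ≠ 0 ∧ Tendsto (fun t => A μ f a t 0) atTop (𝓝 l)

/-- HIL. Proof (Wold). Work in `H = ℓ²(ℤ, ℝ)` (`lp (fun _ : ℤ => ℝ) 2`), `σ` the bilateral shift (linear isometry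
equivalence), `a`, `b ∈ H` the extensions of `α`, `β` by `0` to the negative integers. Suppose that all the sums vanish; then
`⟪σ^i a, σ^j b⟫ = 0` for all integers `i, j`. Let `F` be the closed span of `σ^j b`, `j ≥ 0`; all its members vanish at the
negative places. `σ F ≠ F`: otherwise `F = σ^n F` for all `n`, whose members vanish at the places `< n`, so `F = 0`, but
`b ∈ F`, `b ≠ 0`. So there is `u ∈ F` with `‖u‖ = 1`, `u ⊥ σ F`. Then `⟪u, σ^j u⟫ = 0` for `j ≥ 1`, the `σ^j u`, `j ∈ ℤ`, are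
orthonormal and orthogonal to all `σ^i a`. For the unit vector `e` at the place `0`: `∑_j ⟪σ^j u, e⟫^2 = ∑_j u_{-j}^2 = 1 =
‖e‖^2`, so `e` lies in the closed span of the `σ^j u`, so `α 0 = ⟪a, e⟫ = 0`. -/
def S_hil : Prop := ∀ α β : ℕ → ℝ, Summable (fun k => α k ^ 2) → Summable (fun k => β k ^ 2) → α 0 ≠ 0 → β 0 ≠ 0 →
  ∃ j : ℕ, ∑' k, α k * β (k + j) ≠ 0 ∨ ∑' k, α (k + j) * β k ≠ 0

/-- AVG. The averages. Proof: `|A(t,k)|, |B(t,k)| ≤ 1`. For `T` large (depending on `N`) `A(t, k)`, `B(t, k)` are within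
`1 / (N + 1)^2` of `α k`, `β k` for all `t ≥ T` and `k ≤ N + j`; then for `s = T + i`, `i < N`,
`∑_{t ∈ [T, s]} A(t, s - t) B(t, s - t + j) = ∑_{k ≤ i} A(s - k, k) B(s - k, k + j)` is within `2 / (N+1)` of
`∑_{k ≤ i} α k β (k + j)`, whose Cesàro means tend to the sum of the (absolutely convergent) series. -/
def S_avg : Prop := ∀ (A B : ℕ → ℕ → ℝ) (α β : ℕ → ℝ) (j : ℕ), (∀ t k, |A t k| ≤ 1) → (∀ t k, |B t k| ≤ 1) →
  (∀ k, Tendsto (fun t => A t k) atTop (𝓝 (α k))) → (∀ k, Tendsto (fun t => B t k) atTop (𝓝 (β k))) →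
  Summable (fun k => α k ^ 2) → Summable (fun k => β k ^ 2) →
  ∃ T : ℕ → ℕ, Tendsto (fun N : ℕ => (∑ i ∈ Finset.range N, ∑ t ∈ Finset.Ico (T N) (T N + i + 1),
    A t (T N + i - t) * B t (T N + i - t + j)) / (N : ℝ)) atTop (𝓝 (∑' k, α k * β (k + j)))

/-- JOI. Limits of averages are joinings. Proof. Let `R N = (1/N) ∑_{i<N} (S^[T N + i] × S^[T N + i])_* Q N` (for `N ≥ 1`), a
probability measure with marginals `μ`, `ν` (invariance). The set of the probability measures on the Polish space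
`(ℕ → ℕ) × (ℕ → ℕ)` with these marginals is tight (`K1 ×ˢ K2` with compact `K1`, `K2` for `μ`, `ν`; every finite measure on
a Polish space is tight), so a subsequence of `R N` converges to some `ξ` (`isCompact_closure_of_isTightMeasureSet` in
`Mathlib/MeasureTheory/Measure/Prokhorov.lean`; the space of probability measures is metrizable, or use a cluster point).
The marginals of `ξ` are `μ`, `ν` (maps are continuous), `ξ` is invariant: for bounded continuous `F` the integrals of `F` and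
`F ∘ (S × S)` under `R N` differ by at most `2 ‖F‖ / N`. The set `{p | f (p.1 s) = a ∧ h (p.2 s') = b}` is clopen, so its
measures converge. -/
def S_joi : Prop := ∀ (μ ν : Measure (ℕ → ℕ)) [IsProbabilityMeasure μ] [IsProbabilityMeasure ν],
  MeasurePreserving S μ μ → MeasurePreserving S ν ν → ∀ (m k : ℕ) (f : ℕ → Fin m) (h : ℕ → Fin k) (a : Fin m)
  (b : Fin k) (j : ℕ) (Q : ℕ → Measure ((ℕ → ℕ) × (ℕ → ℕ))) (T : ℕ → ℕ) (r δ : ℝ) (L : ℕ → ℝ),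
  (∀ N, (Q N).map Prod.fst = μ ∧ (Q N).map Prod.snd = ν) → Tendsto L atTop (𝓝 r) →
  (∀ N, 0 < N → |(∑ i ∈ Finset.range N, (Q N).real {p | f (p.1 (T N + i)) = a ∧ h (p.2 (T N + i + j)) = b}) / (N : ℝ) -
    L N| ≤ δ) →
  ∃ ξ : Measure ((ℕ → ℕ) × (ℕ → ℕ)), IsProbabilityMeasure ξ ∧ MeasurePreserving (Prod.map S S) ξ ξ ∧
    ξ.map Prod.fst = μ ∧ ξ.map Prod.snd = ν ∧ |ξ.real {p | f (p.1 0) = a ∧ h (p.2 j) = b} - r| ≤ δ

/-- QME. The measure with the density `D`. Proof: `Q = (μ.prod ν).withDensity (fun p => ENNReal.ofReal (D ... p.1 p.2))`;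
`D ≥ 0` is bounded and measurable; the marginals by S_mar (with `c t = ε g_t(x)`), Fubini; the value on a product
set by Fubini. -/
def S_qme : Prop := ∀ (μ ν : Measure (ℕ → ℕ)) [IsProbabilityMeasure μ] [IsProbabilityMeasure ν] (m k : ℕ)
  (f : ℕ → Fin m) (h : ℕ → Fin k) (a : Fin m) (b : Fin k) (ε : ℝ) (T U : ℕ), 0 ≤ ε → ε ≤ 1 →
  ∃ Q : Measure ((ℕ → ℕ) × (ℕ → ℕ)), Q.map Prod.fst = μ ∧ Q.map Prod.snd = ν ∧ ∀ s s' : ℕ,
    Q.real {p | f (p.1 s) = a ∧ h (p.2 s') = b} = ∫ x, ∫ y, I f a s x * I h b s' y * D μ ν f h a b ε T U x y ∂ν ∂μ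

/-- ONE. One sign of the lag. Proof: with `τ = ∑' k, α k * β (k + j) ≠ 0` and `ε = min 1 (|τ| / 2)`: take `T` from S_avg
(for `A = A μ f a`, `B = A ν h b`), `Q N` from S_qme with `T = T N`, `U = T N + N + j + 1`. For `i < N`, `s = T N + i`: by
S_expa `Q N {f (x_s) = a, h (y_{s+j}) = b}` is within `ε^2` of `μ(f = a) ν(h = b) + ε ∑_{t ∈ Ico T U} (∫ g_t I_s) (∫ h_t
I_{s+j})`, where the terms with `t > s` vanish (`∫ g_t I_s = 0` by S_inn, `I_s` is a function of the name of length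
`s + 1 ≤ t`), and `(∫ g_t I_s) = A t (s - t)`, `(∫ h_t I_{s+j}) = B t (s - t + j)` for `t ≤ s`. S_joi with
`r = μ(..) ν(..) + ε τ`, `δ = ε^2` gives `ξ` with `|ξ(..) - μ(..) ν(..) - ε τ| ≤ ε^2 < ε |τ|`. -/
def S_one : Prop := ∀ (μ ν : Measure (ℕ → ℕ)) [IsProbabilityMeasure μ] [IsProbabilityMeasure ν],
  MeasurePreserving S μ μ → MeasurePreserving S ν ν → ∀ (m k : ℕ) (f : ℕ → Fin m) (h : ℕ → Fin k) (a : Fin m)
  (b : Fin k) (α β : ℕ → ℝ) (j : ℕ), (∀ i, Tendsto (fun t => A μ f a t i) atTop (𝓝 (α i))) →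
  (∀ i, Tendsto (fun t => A ν h b t i) atTop (𝓝 (β i))) → ∑' i, α i * β (i + j) ≠ 0 →
  ∃ ξ : Measure ((ℕ → ℕ) × (ℕ → ℕ)), IsProbabilityMeasure ξ ∧ MeasurePreserving (Prod.map S S) ξ ξ ∧
    ξ.map Prod.fst = μ ∧ ξ.map Prod.snd = ν ∧
    ξ.real {p | f (p.1 0) = a ∧ h (p.2 j) = b} ≠ μ.real {x | f (x 0) = a} * ν.real {y | h (y 0) = b}

/-- LAG. Remove the lag and refine to points: Proof: `ξ' = ξ.map (Prod.map id S^[j])`; its marginals are `μ`, `ν` (invariance),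
it is invariant, `ξ' {f (x 0) = a, h (y 0) = b} = ξ {f (x 0) = a, h (y j) = b}`; if
`ξ' ({x 0 = a'} ∩ {y 0 = b'}) = μ {x 0 = a'} * ν {y 0 = b'}` for all naturals `a'`, `b'`, sum over the `a'` with `f a' = a`
and the `b'` with `h b' = b` (countable unions, `ENNReal.tsum_mul_left`...) and get a contradiction. -/
def S_lag : Prop := ∀ (μ ν : Measure (ℕ → ℕ)) [IsProbabilityMeasure μ] [IsProbabilityMeasure ν],
  MeasurePreserving S μ μ → MeasurePreserving S ν ν → ∀ (m k : ℕ) (f : ℕ → Fin m) (h : ℕ → Fin k) (a : Fin m)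
  (b : Fin k) (j : ℕ) (ξ : Measure ((ℕ → ℕ) × (ℕ → ℕ))) [IsProbabilityMeasure ξ],
  MeasurePreserving (Prod.map S S) ξ ξ → ξ.map Prod.fst = μ → ξ.map Prod.snd = ν →
  ξ.real {p | f (p.1 0) = a ∧ h (p.2 j) = b} ≠ μ.real {x | f (x 0) = a} * ν.real {y | h (y 0) = b} →
  ∃ ξ' : Measure ((ℕ → ℕ) × (ℕ → ℕ)), IsProbabilityMeasure ξ' ∧ MeasurePreserving (Prod.map S S) ξ' ξ' ∧
    ξ'.map Prod.fst = μ ∧ ξ'.map Prod.snd = ν ∧ ∃ a' b' : ℕ,
      ξ' ({p : (ℕ → ℕ) × (ℕ → ℕ) | p.1 0 = a'} ∩ {p | p.2 0 = b'}) ≠ μ {x : ℕ → ℕ | x 0 = a'} * ν {y : ℕ → ℕ | y 0 = b'}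

end Pool.Agent.Q127.DJ
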